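import Pool.Agent.Lib.MP_d4c35b_ag.TW.FullW

/-!
MP_d4c35b_ag: compact complex manifolds `X` such that the stable base locus of `O_{P(T_X)}(1)` does
not dominate `X`.

After a finite étale cover `Y → X` the holomorphic 1-forms have no zeros, and all holomorphic
covariant tensor fields on all finite étale covers of `Y` are polynomials with constant
coefficients in the holomorphic 1-forms of `Y`.  In particular the Albanese map of `Y` (if `X` is
Kähler) is a surjective submersion and all these tensor fields come from the Albanese torus.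

The definitions are in `Pool/Agent/Lib/MP_d4c35b_ag/TG/Read.lean` and
`Pool/Agent/Lib/MP_d4c35b_ag/TW/ReadW.lean`.
-/

set_option autoImplicit false

open scoped Manifold ContDiff TensorProduct
open Set Function MP_d4c35b_ag.TG MP_d4c35b_ag.Read

namespace Pool.Agent.Results.MP_d4c35b_ag.StableBaseLocus

theorem result :
    ∀ (E : Type) [NormedAddCommGroup E] [NormedSpace ℂ E] [FiniteDimensional ℂ E]
      (X : Type) [TopologicalSpace X] [ChartedSpace E X] [CptCplx E X],
      (∃ x₀ : X, OutsideStableBaseLocus (E := E) x₀) →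
      ∃ (Y : Type) (_ : TopologicalSpace Y) (_ : ChartedSpace E Y) (_ : CptCplx E Y) (f : Y → X),
        MP_d4c35b_ag.Read.Etale E f ∧ NoZeros E Y ∧ TensorsFromForms E Y ∧
        ∀ (F : Type) [NormedAddCommGroup F] [NormedSpace ℂ F] [FiniteDimensional ℂ F]
          (A : Type) [TopologicalSpace A] [T2Space A] [ConnectedSpace A] [ChartedSpace F A]
          [IsManifold 𝓘(ℂ, F) ω A] (α : Y → A),
          AlbaneseType E F α → TensorsFromTarget E F α := by
  intro E _ _ _ X _ _ hX0 hG
  have hX : CCM E X := ⟨hX0.t2, hX0.compact, hX0.connected, hX0.manifold⟩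
  obtain ⟨k, hk, hG'⟩ : ∃ k : ℕ, 1 ≤ k ∧ MP_d4c35b_ag.TW.HW E X k := by
    obtain ⟨x₀, h⟩ := hG
    exact MP_d4c35b_ag.TW.HW_of_outside MP_d4c35b_ag.TW.pUNI h
  obtain ⟨Y, _, _, hY, f, hf, h1, h2⟩ := MP_d4c35b_ag.TW.fullW E X k hk hG'
  have hYc : CptCplx E Y := ⟨hY.t2, hY.compact, hY.connected, hY.manifold⟩
  have h1' : ∀ η : Form E Y, HolForm univ η → ∀ y : Y, η y = 0 → η = 0 :=
    fun η hη y hy => h1 η (holForm_iff.mp hη) y hy
  have h2' : ∀ (Z : Type) [TopologicalSpace Z] [ChartedSpace E Z] [CptCplx E Z] (g : Z → Y),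
      MP_d4c35b_ag.Read.Etale E g → ∀ (p : ℕ) (s : Cov E Z p), HolCov s →
        s ∈ Submodule.span ℂ {t : Cov E Z p | ∃ η : Fin p → Form E Y,
          (∀ i, HolForm univ (η i)) ∧ t = prodForm (fun i => pullForm g (η i))} := by
    intro Z _ _ hZ0 g hg p s hs
    have hZ : CCM E Z := ⟨hZ0.t2, hZ0.compact, hZ0.connected, hZ0.manifold⟩
    refine Submodule.span_mono ?_ (h2 Z g hg p s (HC_of_holCov hs))
    rintro t ⟨η, hη, rfl⟩
    exact ⟨η, fun i => holForm_iff.mpr (hη i), rfl⟩
  refine ⟨Y, _, _, hYc, f, hf, ?_, ?_, ?_⟩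
  · intro η hη y hy y' v
    have h := h1' η hη y (LinearMap.ext hy)
    exact congrArg (fun θ : Form E Y => θ y' v) h
  · intro Z _ _ _ g hg p s hs
    refine Submodule.span_induction (p := fun s _ => IsPolynomial E g s) ?_ ?_ ?_ ?_
      (h2' Z g hg p s hs)
    · rintro t ⟨η, hη, rfl⟩
      refine ⟨1, fun _ => 1, fun _ => η, fun _ => hη, fun z v => ?_⟩
      simp [prodForm]
    · exact ⟨0, fun i => i.elim0, fun i => i.elim0, fun i => i.elim0, fun z v => by simp⟩
    · rintro a b _ _ ⟨n, c, η, hη, he⟩ ⟨n', c', η', hη', he'⟩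
      refine ⟨n + n', Fin.append c c', Fin.append η η', ?_, ?_⟩
      · intro j
        refine Fin.addCases (fun i => ?_) (fun i => ?_) j
        · rw [Fin.append_left]; exact hη i
        · rw [Fin.append_right]; exact hη' i
      · intro z v
        have h := congrArg₂ (· + ·) (he z v) (he' z v)
        rw [Fin.sum_univ_add]
        simp only [Fin.append_left, Fin.append_right]
        exact h
    · rintro r a _ ⟨n, c, η, hη, he⟩
      refine ⟨n, fun j => r * c j, η, hη, fun z v => ?_⟩
      have h := congrArg (fun x => r * x) (he z v)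
      simp only [Finset.mul_sum, mul_assoc] at h ⊢
      exact h
  · intro F _ _ _ A _ _ _ _ _ α ⟨hα, hgen, hbij⟩
    have hpull0 : pullForm (E := E) α (0 : Form F A) = 0 := by
      funext y
      ext v
      rfl
    have hzero : HolForm univ (0 : Form E Y) := by
      intro U' _ _ V _
      exact mdifferentiableOn_const
    have hzeroA : HolForm univ (0 : Form F A) := by
      intro U' _ _ V _
      exact mdifferentiableOn_const
    have hinj : ∀ ϖ : Form F A, HolForm univ ϖ → pullForm (E := E) α ϖ = 0 → ϖ = 0 := by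
      intro ϖ hϖ h0
      obtain ⟨ϖ', -, huniq⟩ := hbij 0 hzero
      rw [huniq ϖ ⟨hϖ, h0⟩, huniq 0 ⟨hzeroA, hpull0⟩]
    have hsub := submersion_of hα h1' (fun a ξ => by
      obtain ⟨ϖ, hϖ, h⟩ := hgen a ξ
      exact ⟨ϖ, hϖ, LinearMap.ext h⟩) hinj
    refine ⟨?_, hsub, ?_⟩
    · have hop : IsOpen (range α) := (open_of_submersion hα hsub).isOpen_range
      have hcl : IsClosed (range α) := (isCompact_range hα.continuous).isClosed
      exact range_eq_univ.mp (IsClopen.eq_univ ⟨hcl, hop⟩ (range_nonempty α))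
    · intro Z _ _ _ g hg p s hs
      refine Submodule.span_induction (p := fun s _ => ∃ t : Cov F A p, HolCov t ∧
        s = pullCov (E := E) (α ∘ g) t) ?_ ?_ ?_ ?_ (h2' Z g hg p s hs)
      · rintro t ⟨η, hη, rfl⟩
        choose ϖ hϖ _ using fun i => hbij (η i) (hη i)
        refine ⟨prodForm ϖ, holCov_prod (fun i => (hϖ i).1), ?_⟩
        rw [pullCov_prod hα hg]
        congr 1
        funext i
        rw [(hϖ i).2]
      · exact ⟨0, holCov_zero, by funext z; ext v; rfl⟩
      · rintro a b _ _ ⟨t, ht, rfl⟩ ⟨t', ht', rfl⟩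
        exact ⟨t + t', holCov_add ht ht', by funext z; ext v; rfl⟩
      · rintro c a _ ⟨t, ht, rfl⟩
        exact ⟨c • t, holCov_smul c ht, by funext z; ext v; rfl⟩

end Pool.Agent.Results.MP_d4c35b_ag.StableBaseLocus
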